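import Mathlib

set_option autoImplicit false

namespace Pool.Agent.H.MP_556855_lc

open Set Filter Cardinal

/-- almost disjoint family of infinite subsets of the naturals -/
def AD (A : Set (Set ℕ)) : Prop :=
  (∀ a ∈ A, a.Infinite) ∧ ∀ a ∈ A, ∀ b ∈ A, a ≠ b → (a ∩ b).Finite

/-- the topology of the Isbell-Mrowka space on `ℕ ⊕ A` -/
@[reducible] def psi (A : Set (Set ℕ)) : TopologicalSpace (ℕ ⊕ A) :=
  TopologicalSpace.generateFrom
    ({s : Set (ℕ ⊕ A) | ∃ n : ℕ, s = {Sum.inl n}} ∪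
     {s : Set (ℕ ⊕ A) | ∃ a : A, ∃ F : Set ℕ, F.Finite ∧
        s = insert (Sum.inr a) (Sum.inl '' ((a : Set ℕ) \ F))})

/-- star of `B` with respect to `U` -/
def St {X : Type} (B : Set X) (U : Set (Set X)) : Set X := ⋃₀ {u | u ∈ U ∧ (u ∩ B).Nonempty}

/-- open cover -/
def OC {X : Type} (t : TopologicalSpace X) (U : Set (Set X)) : Prop :=
  (∀ u ∈ U, IsOpen u) ∧ ⋃₀ U = Set.univ

/-- property (a) -/
def PropA {X : Type} (t : TopologicalSpace X) : Prop :=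
  ∀ U, OC t U → ∀ D : Set X, Dense D →
    ∃ F ⊆ D, IsClosed F ∧ DiscreteTopology F ∧ St F U = Set.univ

/-- selectively (a) -/
def SelA {X : Type} (t : TopologicalSpace X) : Prop :=
  ∀ U : ℕ → Set (Set X), (∀ n, OC t (U n)) → ∀ D : Set X, Dense D →
    ∃ F : ℕ → Set X, (∀ n, F n ⊆ D ∧ IsClosed (F n) ∧ DiscreteTopology (F n)) ∧
      ⋃ n, St (F n) (U n) = Set.univ

/-- star-Rothberger -/
def StarR {X : Type} (t : TopologicalSpace X) : Prop :=
  ∀ U : ℕ → Set (Set X), (∀ n, OC t (U n)) →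
    ∃ V : ℕ → Set X, (∀ n, V n ∈ U n) ∧ ⋃ n, St (V n) (U n) = Set.univ

/-- the dominating number -/
noncomputable def dd : Cardinal.{0} :=
  sInf {c | ∃ D : Set (ℕ → ℕ), (∀ f : ℕ → ℕ, ∃ g ∈ D, ∀ᶠ n in atTop, f n ≤ g n) ∧ #D = c}

/-- cov(M), in its combinatorial form -/
noncomputable def covM : Cardinal.{0} :=
  sInf {c | ∃ F : Set (ℕ → ℕ), (∀ g : ℕ → ℕ, ∃ f ∈ F, {n | f n = g n}.Finite) ∧ #F = c}

/-- cofinality of the countable subsets of `κ` under inclusion -/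
noncomputable def cofc (κ : Cardinal.{0}) : Cardinal.{0} :=
  sInf {c | ∃ C : Set (Set κ.ord.ToType), (∀ s ∈ C, s.Countable) ∧
    (∀ s : Set κ.ord.ToType, s.Countable → ∃ t ∈ C, s ⊆ t) ∧ #C = c}

/-- every subset of `X` is a relative G-delta -/
def QSet (X : Set ℝ) : Prop := ∀ S ⊆ X, ∃ G : Set ℝ, IsGδ G ∧ G ∩ X = S

/-- least size that no selectively (a) almost disjoint family has -/
noncomputable def vssa : Cardinal.{0} :=
  sInf {κ | ∀ A : Set (Set ℕ), AD A → #A = κ → ¬ SelA (psi A)}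

end Pool.Agent.H.MP_556855_lc
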