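import Mathlib
import Pool.Agent.H.MP_556855_lc.D
import Pool.Agent.H.MP_cc69c8_lc.A

set_option autoImplicit false

namespace Pool.Agent.H.MP_556855_lc

open Set Filter Cardinal Topology Pool.Agent.H.MP_cc69c8_lc

def nd (x : ℕ → ℕ) (k : ℕ) : ℕ := Nat.pair k (yy x k)

def cy (x : ℕ → ℕ) (k : ℕ) : Set (ℕ → ℕ) := {z | ∀ i < k, z i = x i}

theorem nd_eq {x z : ℕ → ℕ} {k l : ℕ} (h : nd x k = nd z l) : k = l ∧ ∀ i < k, x i = z i := by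
  obtain ⟨rfl, h2⟩ := Nat.pair_eq_pair.1 h
  exact ⟨rfl, fun i hi => List.map_inj_left.1
    (Encodable.encode_injective (Nat.pair_eq_pair.1 h2).2) i (List.mem_range.2 hi)⟩

theorem cy_sub {W : Set (ℕ → ℕ)} (hW : IsOpen W) {x : ℕ → ℕ} (hx : x ∈ W) (j : ℕ) :
    ∃ k, j ≤ k ∧ cy x k ⊆ W := by
  obtain ⟨I, u, h1, h2⟩ := isOpen_pi_iff.1 hW x hx
  obtain ⟨b, hb⟩ := I.bddAbove
  exact ⟨max j (b + 1), le_max_left _ _, fun z hz => h2 fun i hi => by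
    rw [hz i (lt_max_of_lt_right (Nat.lt_succ_of_le (hb hi)))]; exact (h1 i hi).2⟩

theorem clo {A : Set (Set ℕ)} {P : Set ℕ} (h : ∀ a ∈ A, (a ∩ P).Finite) :
    @IsClosed _ (psi A) (Sum.inl '' P) ∧
      @DiscreteTopology (Sum.inl '' P : Set (ℕ ⊕ A)) (@instTopologicalSpaceSubtype _ _ (psi A)) := by
  letI := psi A
  have h1 : ∀ n, IsOpen ({Sum.inl n} : Set (ℕ ⊕ A)) := fun n =>
    TopologicalSpace.GenerateOpen.basic _ (Or.inl ⟨n, rfl⟩)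
  refine ⟨isOpen_compl_iff.1 (isOpen_iff_forall_mem_open.2 fun x hx => ?_), ?_⟩
  · rcases x with n | a
    · exact ⟨_, singleton_subset_iff.2 hx, h1 n, rfl⟩
    · refine ⟨_, ?_, TopologicalSpace.GenerateOpen.basic _ (Or.inr ⟨a, _, h a.1 a.2, rfl⟩),
        Or.inl rfl⟩
      rintro _ (rfl | ⟨n, hn, rfl⟩)
      · exact hx
      · rintro ⟨m, hm, e⟩
        obtain rfl := Sum.inl_injective e
        exact hn.2 ⟨hn.1, hm⟩
  · refine discreteTopology_iff_isOpen_singleton.2 ?_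
    rintro ⟨_, n, hn, rfl⟩
    refine ⟨_, h1 n, ?_⟩
    ext y
    simp [Subtype.ext_iff]

theorem delta {Y : Set (ℕ → ℕ)} (hY : ∀ S ⊆ Y, ∃ G, IsGδ G ∧ G ∩ Y = S) (f : (ℕ → ℕ) → ℕ) :
    ∃ W : ℕ → Set (ℕ → ℕ), (∀ j, IsOpen (W j)) ∧ (∀ y ∈ Y, y ∈ W (f y)) ∧
      ∀ y ∈ Y, {j | y ∈ W j}.Finite := by
  have h : ∀ i, ∃ g : ℕ → Set (ℕ → ℕ), (∀ m, IsOpen (g m)) ∧
      (⋂ m, g m) ∩ Y = {y | y ∈ Y ∧ i ≤ f y} := fun i => by
    obtain ⟨G, h1, h2⟩ := hY {y | y ∈ Y ∧ i ≤ f y} fun _ h => h.1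
    obtain ⟨g, g1, rfl⟩ := h1.eq_iInter_nat
    exact ⟨g, g1, h2⟩
  choose g g1 g2 using h
  refine ⟨fun j => ⋂ i ∈ Iic j, ⋂ m ∈ Iic j, g i m, fun j => (finite_Iic j).isOpen_biInter
    fun i _ => (finite_Iic j).isOpen_biInter fun m _ => g1 i m, fun y hy => ?_, fun y hy => ?_⟩
  · refine mem_iInter₂.2 fun i hi => mem_iInter₂.2 fun m _ => ?_
    exact mem_iInter.1 ((g2 i).ge ⟨hy, hi⟩).1 m
  · obtain ⟨m, hm⟩ : ∃ m, y ∉ g (f y + 1) m := by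
      by_contra h
      push Not at h
      exact absurd ((g2 _).le ⟨mem_iInter.2 h, hy⟩).2 (by omega)
    refine (finite_Iic (max m (f y + 1))).subset fun j hj => ?_
    by_contra h
    have h : max m (f y + 1) < j := not_le.1 h
    exact hm (mem_iInter₂.1 (mem_iInter₂.1 hj _ (le_of_max_le_right h.le)) _
      (le_of_max_le_left h.le))

theorem pa {Y : Set (ℕ → ℕ)} (hY : ∀ S ⊆ Y, ∃ G, IsGδ G ∧ G ∩ Y = S) : PropA (psi (gr '' Y)) := by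
  classical
  letI := psi (gr '' Y)
  intro U hU D hD
  have h1 : ∀ y, ∃ u, ∃ j : ℕ, ∀ hy : y ∈ Y, u ∈ U ∧ Sum.inr ⟨gr y, y, hy, rfl⟩ ∈ u ∧
      ∀ k, j ≤ k → Sum.inl (nd y k) ∈ u := fun y => by
    by_cases hy : y ∈ Y
    · obtain ⟨u, u1, u2⟩ := hU.2.ge (mem_univ (Sum.inr ⟨gr y, y, hy, rfl⟩))
      obtain ⟨b, hb⟩ := ((opn (hU.1 u u1) _ u2).preimage (f := nd y)
        fun _ _ _ _ h => (nd_eq h).1).bddAbove
      refine ⟨u, b + 1, fun _ => ⟨u1, u2, fun k hk => by_contra fun h => ?_⟩⟩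
      exact absurd (hb ⟨⟨k, rfl⟩, h⟩) (by omega)
    · exact ⟨∅, 0, fun h => (hy h).elim⟩
  choose u f hu using h1
  obtain ⟨W, W1, W2, W3⟩ := delta hY f
  let P : Set ℕ := {n | (∃ y j k, n = nd y k ∧ (j ≤ k ∧ cy y k ⊆ W j) ∧
    ∀ l < k, ¬ (j ≤ l ∧ cy y l ⊆ W j)) ∨ ∀ y ∈ Y, ∀ k, f y ≤ k → n ≠ nd y k}
  have hP : ∀ a ∈ gr '' Y, (a ∩ P).Finite := by
    rintro _ ⟨y, hy, rfl⟩
    refine (((W3 y hy).image fun j => nd y (sInf {k | j ≤ k ∧ cy y k ⊆ W j})).union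
      ((finite_Iio (f y)).image (nd y))).subset ?_
    rintro _ ⟨⟨k, rfl⟩, ⟨z, j, l, e', h1, h2⟩ | h⟩
    · obtain ⟨rfl, e⟩ := nd_eq e'
      have hc : ∀ l ≤ k, cy y l = cy z l := fun l hl => ext fun w =>
        forall₂_congr fun i hi => by rw [e i (hi.trans_le hl)]
      refine Or.inl ⟨j, h1.2 e, congrArg (nd y) (IsLeast.csInf_eq ⟨⟨h1.1, hc k le_rfl ▸ h1.2⟩,
        fun l hl => by_contra fun h => ?_⟩)⟩
      exact h2 l (not_le.1 h) ⟨hl.1, hc l (not_le.1 h).le ▸ hl.2⟩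
    · exact Or.inr ⟨k, not_le.1 fun h' => h y hy k h' rfl, rfl⟩
  have h2 : ∀ y ∈ Y, u y ⊆ St (Sum.inl '' P) U := fun y hy => by
    have h := cy_sub (W1 _) (W2 y hy) (f y)
    exact subset_sUnion_of_mem ⟨(hu y hy).1, _, (hu y hy).2.2 _ (Nat.find_spec h).1, _,
      Or.inl ⟨y, f y, _, rfl, Nat.find_spec h, fun l hl => Nat.find_min h hl⟩, rfl⟩
  refine ⟨Sum.inl '' P, ?_, (clo hP).1, (clo hP).2, eq_univ_of_forall fun x => ?_⟩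
  · rintro _ ⟨n, -, rfl⟩
    obtain ⟨_, rfl, h⟩ := hD.inter_open_nonempty {Sum.inl n}
      (TopologicalSpace.GenerateOpen.basic _ (Or.inl ⟨n, rfl⟩)) ⟨_, rfl⟩
    exact h
  · rcases x with n | ⟨_, y, hy, rfl⟩
    · by_cases h : ∀ y ∈ Y, ∀ k, f y ≤ k → n ≠ nd y k
      · obtain ⟨v, v1, v2⟩ := hU.2.ge (mem_univ (Sum.inl n))
        exact ⟨v, ⟨v1, _, v2, n, Or.inr h, rfl⟩, v2⟩
      · push Not at h
        obtain ⟨y, hy, k, hk, rfl⟩ := h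
        exact h2 y hy ((hu y hy).2.2 k hk)
    · exact h2 y hy (hu y hy).2.1

theorem sel {X : Type} {t : TopologicalSpace X} (h : PropA t) : SelA t := fun U hU D hD => by
  choose F h1 h2 h3 h4 using fun n => h (U n) (hU n) D hD
  exact ⟨F, fun n => ⟨h1 n, h2 n, h3 n⟩, eq_univ_of_univ_subset
    ((h4 0).ge.trans (subset_iUnion (fun n => St (F n) (U n)) 0))⟩

theorem qa {X : Set ℝ} (hX : QSet X) {κ : Cardinal} (h : κ ≤ #X) :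
    ∃ A, AD A ∧ #A = κ ∧ PropA (psi A) ∧ SelA (psi A) := by
  obtain ⟨Z, hZ, rfl⟩ := le_mk_iff_exists_subset.1 h
  obtain ⟨p, p1, p2⟩ := PolishSpace.exists_nat_nat_continuous_surjective ℝ
  obtain ⟨e, he⟩ := p2.hasRightInverse
  have hp : PropA (psi (gr '' (e '' Z))) := pa fun S hS => by
    obtain ⟨G, g1, g2⟩ := hX (p '' S) (by
      rintro _ ⟨y, hy, rfl⟩
      obtain ⟨x, hx, rfl⟩ := hS hy
      exact hZ (by rwa [he x]))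
    refine ⟨p ⁻¹' G, g1.preimage p1, Subset.antisymm ?_ fun y hy =>
      ⟨(g2.ge ⟨y, hy, rfl⟩).1, hS hy⟩⟩
    rintro _ ⟨h1, x, hx, rfl⟩
    obtain ⟨y, hy, e1⟩ := g2.le ⟨h1, hZ (by rwa [he x])⟩
    obtain ⟨z, hz, rfl⟩ := hS hy
    rw [he x, he z] at e1
    exact e1 ▸ hy
  refine ⟨_, ⟨?_, ?_⟩, by rw [mk_image_eq gr_inj, mk_image_eq he.injective], hp, sel hp⟩
  · rintro _ ⟨x, -, rfl⟩
    exact gr_inf x
  · rintro _ ⟨x, -, rfl⟩ _ ⟨z, -, rfl⟩ h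
    exact gr_gr fun e => h (by rw [e])

theorem vs {X : Set ℝ} (hX : QSet X) : #X < vssa := by
  have hne : {κ | ∀ A : Set (Set ℕ), AD A → #A = κ → ¬ SelA (psi A)}.Nonempty :=
    ⟨Order.succ #(Set ℕ), fun A _ h => absurd (h ▸ mk_set_le A) (Order.lt_succ _).not_ge⟩
  by_contra h
  obtain ⟨A, a1, a2, -, a3⟩ := qa hX (not_lt.1 h)
  exact csInf_mem hne A a1 a2 a3

end Pool.Agent.H.MP_556855_lc
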