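import Mathlib
import Pool.Agent.H.MP_556855_lc.D
import Pool.Agent.H.MP_cc69c8_lc.A
import Pool.Agent.H.MP_55e6a3_gt.A

set_option autoImplicit false

namespace Pool.Agent.H.MP_556855_lc

open Set Filter Cardinal Topology Pool.Agent.H.MP_cc69c8_lc Pool.Agent.H.MP_55e6a3_gt

theorem step {J : Type} [Countable J] [Infinite J] (E : J → Set ℕ) (h1 : ∀ j, (E j).Infinite)
    (h2 : ∀ i j, i ≠ j → (E i ∩ E j).Finite) :
    ∃ A : Set ℕ, A.Infinite ∧ (∀ j, (A ∩ E j).Finite) ∧ ∀ N, {j | A ∩ E j ⊆ Iio N}.Finite := by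
  obtain ⟨e⟩ := nonempty_equiv_of_countable (α := ℕ) (β := J)
  have h : ∀ j, ∃ k, (k ∈ E (e j) ∧ ∀ i < j, k ∉ E (e i)) ∧ j < k := fun j => by
    obtain ⟨k, k1, k2⟩ := ((h1 (e j)).sdiff ((finite_Iio j).biUnion fun i hi =>
      h2 (e i) (e j) fun h => absurd (e.injective h) (ne_of_lt hi))).exists_gt j
    exact ⟨k, ⟨k1.1, fun i hi h => k1.2 (mem_biUnion hi ⟨h, k1.1⟩)⟩, k2⟩
  choose k k1 k2 using h
  refine ⟨range k, infinite_of_forall_exists_gt fun n => ⟨_, ⟨n, rfl⟩, k2 n⟩, fun j => ?_,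
    fun N => ((finite_Iio N).image e).subset fun j hj => ⟨e.symm j, ?_, e.apply_symm_apply j⟩⟩
  · refine ((finite_Iic (e.symm j)).image k).subset ?_
    rintro _ ⟨⟨i, rfl⟩, hi⟩
    refine ⟨i, not_lt.1 fun h => (k1 i).2 _ h ?_, rfl⟩
    rwa [e.apply_symm_apply]
  · exact (k2 _).trans (hj ⟨⟨_, rfl⟩, by simpa using (k1 (e.symm j)).1⟩)

theorem luzin : ∃ c : I → Set ℕ, (∀ α, (c α).Infinite) ∧ (∀ α β, β < α → (c α ∩ c β).Finite) ∧
    ∀ α N, {β | β < α ∧ c α ∩ c β ⊆ Iio N}.Finite := by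
  have h1 : ∀ (α : I) (r : Iio α → Set ℕ), ∃ A : Set ℕ,
      ((∀ β, (r β).Infinite ∧ ∀ j, (r β ∩ col j).Finite) ∧ ∀ β γ, β < γ → (r γ ∩ r β).Finite) →
      (A.Infinite ∧ ∀ j, (A ∩ col j).Finite) ∧ (∀ β, (A ∩ r β).Finite) ∧
        ∀ N, {β | A ∩ r β ⊆ Iio N}.Finite := fun α r => by
    by_cases h : (∀ β, (r β).Infinite ∧ ∀ j, (r β ∩ col j).Finite) ∧
      ∀ β γ, β < γ → (r γ ∩ r β).Finite
    · have := (cIio α).to_subtype
      obtain ⟨A, a1, a2, a3⟩ := step (Sum.elim r col) (by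
        rintro (β | j)
        exacts [(h.1 β).1, col_inf j]) (by
        rintro (β | j) (γ | i) hne
        · rcases lt_trichotomy β γ with h1 | rfl | h1
          · exact inter_comm _ _ ▸ h.2 _ _ h1
          · exact (hne rfl).elim
          · exact h.2 _ _ h1
        · exact (h.1 β).2 i
        · exact inter_comm _ _ ▸ (h.1 γ).2 j
        · refine finite_empty.subset ?_
          rintro _ ⟨⟨a, rfl⟩, b, hb⟩
          exact hne (by rw [(Nat.pair_eq_pair.1 hb).1]))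
      exact ⟨A, fun _ => ⟨⟨a1, fun j => a2 (Sum.inr j)⟩, fun β => a2 (Sum.inl β),
        fun N => (a3 N).preimage Sum.inl_injective.injOn⟩⟩
    · exact ⟨∅, fun h' => (h h').elim⟩
  choose F hF using h1
  obtain ⟨c, hc⟩ : ∃ c : I → Set ℕ, ∀ α, c α = F α fun β => c β :=
    ⟨wellFounded_lt.fix fun α r => F α fun β => r β β.2, fun α => wellFounded_lt.fix_eq _ α⟩
  have k : ∀ α, ((c α).Infinite ∧ ∀ j, (c α ∩ col j).Finite) ∧
      (∀ β : Iio α, (c α ∩ c β).Finite) ∧ ∀ N, {β : Iio α | c α ∩ c β ⊆ Iio N}.Finite := by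
    intro α
    induction α using WellFoundedLT.induction with
    | ind α ih =>
      rw [hc α]
      exact hF α (fun β => c β) ⟨fun β => (ih β β.2).1, fun β γ h => (ih γ γ.2).2.1 ⟨β, h⟩⟩
  exact ⟨c, fun α => (k α).1.1, fun α β h => (k α).2.1 ⟨β, h⟩, fun α N =>
    (((k α).2.2 N).image Subtype.val).subset fun β hβ => ⟨⟨β, hβ.1⟩, hβ.2, rfl⟩⟩

theorem ndom {ι : Type} (h : #ι < dd) (t : ι → ℕ → ℕ) : ∃ φ : ℕ → ℕ, ∀ i, ∃ n, t i n < φ n := by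
  by_contra hn
  push Not at hn
  refine h.not_ge (le_trans (csInf_le' ?_) (mk_range_le (f := t)))
  refine ⟨range t, fun f => ?_, rfl⟩
  obtain ⟨i, hi⟩ := hn f
  exact ⟨_, ⟨i, rfl⟩, Eventually.of_forall hi⟩

theorem comb (h : aleph 1 < dd) {c : I → Set ℕ} (h1 : ∀ α, (c α).Infinite)
    (h3 : ∀ α N, {β | β < α ∧ c α ∩ c β ⊆ Iio N}.Finite) (f : I → ℕ → ℕ) :
    ∃ b : ℕ → I, ∀ α, ∃ n k, k ∈ c α ∧ k ∈ c (b n) ∧ f α (2 * n) ≤ k ∧ f (b n) (2 * n) ≤ k := by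
  have hI : Infinite I := infinite_iff.2 (mkI ▸ aleph0_lt_aleph_one.le)
  have hB : ∀ n, ∃ (m : ℕ) (e : ℕ → I), Function.Injective e ∧ ∀ j, f (e j) n = m := fun n => by
    obtain ⟨m, hm⟩ : ∃ m, {α | f α n = m}.Infinite := by
      by_contra h
      push Not at h
      obtain ⟨b, hb⟩ := bddI (countable_iUnion fun m => (h m).countable)
      exact lt_irrefl _ (hb b (mem_iUnion.2 ⟨_, rfl⟩))
    exact ⟨m, fun j => hm.natEmbedding _ j, fun i j h => (hm.natEmbedding _).injective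
      (Subtype.ext h), fun j => (hm.natEmbedding _ j).2⟩
  choose m e e1 e2 using hB
  obtain ⟨δ, hδ⟩ := bddI (countable_iUnion fun n => countable_range (e n))
  have ht : ∀ α n, ∃ t, δ ≤ α → ∀ j, t < j → ¬ c α ∩ c (e n j) ⊆ Iio (max (f α n) (m n)) :=
    fun α n => by
      obtain ⟨t, ht⟩ := ((h3 α (max (f α n) (m n))).preimage (e1 n).injOn).bddAbove
      exact ⟨t, fun hα j hj hs => absurd (ht ⟨(hδ _ (mem_iUnion.2 ⟨n, j, rfl⟩)).trans_le hα, hs⟩)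
        hj.not_ge⟩
  choose t ht using ht
  obtain ⟨φ, hφ⟩ := ndom (mkI ▸ h) fun α n => t α (2 * (2 * n))
  obtain ⟨g, hg⟩ := (cIic δ).exists_eq_range ⟨δ, self_mem_Iic⟩
  refine ⟨fun n => if n % 2 = 0 then e (2 * n) (φ (n / 2)) else g (n / 2), fun α => ?_⟩
  by_cases hα : δ ≤ α
  · obtain ⟨n, hn⟩ := hφ α
    obtain ⟨k, k1, k2⟩ := not_subset.1 (ht α _ hα _ hn)
    have k2 : max _ _ ≤ k := not_lt.1 k2
    refine ⟨2 * n, k, k1.1, ?_⟩
    simp only [Nat.mul_mod_right, if_true, Nat.mul_div_cancel_left n two_pos, e2]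
    exact ⟨k1.2, le_of_max_le_left k2, le_of_max_le_right k2⟩
  · obtain ⟨n, rfl⟩ := hg.le (not_le.1 hα).le
    obtain ⟨k, k1, k2⟩ := (h1 (g n)).exists_gt (f (g n) (2 * (2 * n + 1)))
    refine ⟨2 * n + 1, k, k1, ?_⟩
    beta_reduce
    rw [if_neg (by omega), show (2 * n + 1) / 2 = n by omega]
    exact ⟨k1, k2.le, k2.le⟩

theorem cof1 : cofc (aleph 1) = aleph 1 := by
  have hne : aleph 1 ≥ cofc (aleph 1) ∧ {c | ∃ C : Set (Set I), (∀ s ∈ C, s.Countable) ∧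
      (∀ s : Set I, s.Countable → ∃ t ∈ C, s ⊆ t) ∧ #C = c}.Nonempty := by
    have h : #(range fun a : I => Iio a) ∈ {c | ∃ C : Set (Set I), (∀ s ∈ C, s.Countable) ∧
      (∀ s : Set I, s.Countable → ∃ t ∈ C, s ⊆ t) ∧ #C = c} :=
      ⟨_, forall_mem_range.2 cIio, fun s hs => (bddI hs).elim fun b hb => ⟨_, ⟨b, rfl⟩, hb⟩, rfl⟩
    exact ⟨(csInf_le' h).trans (mk_range_le.trans mkI.le), _, h⟩
  refine le_antisymm hne.1 ?_
  obtain ⟨C, c1, c2, c3⟩ := csInf_mem hne.2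
  refine le_trans ?_ c3.le
  rw [← succ_aleph0]
  refine Order.succ_le_of_lt (not_le.1 fun h => ?_)
  obtain ⟨b, hb⟩ := bddI ((le_aleph0_iff_set_countable.1 h).sUnion c1)
  obtain ⟨t, t1, t2⟩ := c2 {b} (countable_singleton b)
  exact lt_irrefl _ (hb b ⟨t, t1, t2 rfl⟩)

theorem sr (h : aleph 1 < dd) : ∃ A, AD A ∧ #A = aleph 1 ∧ StarR (psi A) := by
  obtain ⟨c, c1, c2, c3⟩ := luzin
  have c4 : ∀ α β, α ≠ β → (c α ∩ c β).Finite := fun α β h =>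
    h.lt_or_gt.elim (fun h => inter_comm _ _ ▸ c2 _ _ h) (c2 _ _)
  refine ⟨range c, ⟨forall_mem_range.2 c1, forall_mem_range.2 fun α => forall_mem_range.2
    fun β h => c4 α β fun e => h (by rw [e])⟩, ?_, fun U hU => ?_⟩
  · rw [mk_range_eq _ fun α β e => by_contra fun h => c1 β (by simpa [e] using c4 α β h), mkI]
  have h1 : ∀ α n, ∃ u ∈ U n, ∃ j : ℕ, Sum.inr ⟨c α, α, rfl⟩ ∈ u ∧
      ∀ k ∈ c α, j ≤ k → Sum.inl k ∈ u := fun α n => by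
    obtain ⟨u, u1, u2⟩ := (hU n).2.ge (mem_univ (Sum.inr ⟨c α, α, rfl⟩))
    obtain ⟨b, hb⟩ := (opn ((hU n).1 u u1) _ u2).bddAbove
    exact ⟨u, u1, b + 1, u2, fun k hk hb' => by_contra fun h => absurd (hb ⟨hk, h⟩) (by omega)⟩
  choose u u1 f u2 u3 using h1
  have h2 : ∀ n, ∃ v ∈ U n, Sum.inl (n / 2) ∈ v := fun n => (hU n).2.ge (mem_univ _)
  choose v v1 v2 using h2
  obtain ⟨b, hb⟩ := comb h c1 c3 f
  refine ⟨fun n => if n % 2 = 0 then u (b (n / 2)) n else v n, fun n => ?_,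
    eq_univ_of_forall fun x => mem_iUnion.2 ?_⟩
  · beta_reduce
    split_ifs
    exacts [u1 _ _, v1 _]
  rcases x with k | ⟨_, α, rfl⟩
  · have := v2 (2 * k + 1)
    rw [show (2 * k + 1) / 2 = k by omega] at this
    exact ⟨2 * k + 1, _, ⟨v1 _, _, this, by beta_reduce; rwa [if_neg (by omega)]⟩, this⟩
  · obtain ⟨n, k, k1, k2, k3, k4⟩ := hb α
    refine ⟨2 * n, _, ⟨u1 α _, _, u3 _ _ k k1 k3, ?_⟩, u2 α _⟩
    beta_reduce
    rw [if_pos (by omega), show 2 * n / 2 = n by omega]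
    exact u3 _ _ k k2 k4

end Pool.Agent.H.MP_556855_lc
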